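import Mathlib

namespace Pool.Agent.Results.MP_3ec6a8_co.Counterexample

open Finset

/-- vertex = (side, class, index); graph `b`: opposite sides, classes differ iff `b`. -/
def G (d : ℕ) (b : Bool) : SimpleGraph (Bool × Bool × Fin d) where
  Adj u v := u.1 ≠ v.1 ∧ xor u.2.1 v.2.1 = b
  symm := ⟨fun u v h => ⟨h.1.symm, by rw [Bool.xor_comm]; exact h.2⟩⟩
  loopless := ⟨fun u h => h.1 rfl⟩

instance (d : ℕ) (b : Bool) : DecidableRel (G d b).Adj := fun u v =>
  inferInstanceAs (Decidable (u.1 ≠ v.1 ∧ xor u.2.1 v.2.1 = b))

lemma deg (d : ℕ) (b : Bool) (v : Bool × Bool × Fin d) : (G d b).degree v = d := by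
  have h : (G d b).neighborFinset v =
      (univ : Finset (Fin d)).image (fun x => (!v.1, xor v.2.1 b, x)) := by
    ext ⟨s, c, x⟩
    obtain ⟨s', c', x'⟩ := v
    rw [SimpleGraph.mem_neighborFinset]
    simp only [G, mem_image, mem_univ, true_and, Prod.mk.injEq]
    cases s <;> cases c <;> cases s' <;> cases c' <;> cases b <;> simp
  rw [← SimpleGraph.card_neighborFinset_eq_degree, h, card_image_of_injective]
  · simp
  · intro x y hxy
    simpa using hxy

lemma edges (d : ℕ) (b : Bool) : (G d b).edgeSet.ncard = 2 * d * d := by
  have h := SimpleGraph.sum_degrees_eq_twice_card_edges (G d b)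
  simp only [deg, sum_const, card_univ, Fintype.card_prod, Fintype.card_bool, Fintype.card_fin,
    smul_eq_mul] at h
  rw [← SimpleGraph.coe_edgeFinset, Set.ncard_coe_finset]
  nlinarith

theorem result (d : ℕ) (hd : 1 < d) :
    ∃ (k : ℕ) (V : Type) (_ : Fintype V) (A : Set V) (F : Fin k → SimpleGraph V),
      1 ≤ k ∧
      (∀ i, (F i).IsBipartiteWith A Aᶜ) ∧
      (∀ i v, ((F i).neighborSet v).ncard ≤ d) ∧
      (∀ i, (k - 1) * d < (F i).edgeSet.ncard) ∧
      ¬ ∃ e : Fin k → Sym2 V, (∀ i, e i ∈ (F i).edgeSet) ∧
          ∀ i j, i ≠ j → ∀ v, ¬ (v ∈ e i ∧ v ∈ e j) := by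
  classical
  refine ⟨2 * d, Bool × Bool × Fin d, inferInstance, {v | v.1 = true},
    fun i => G d (decide (i.val = 0)), by omega, ?_, ?_, ?_, ?_⟩
  · intro i
    refine ⟨disjoint_compl_right, ?_⟩
    rintro ⟨s, c, x⟩ ⟨s', c', x'⟩ h
    have h1 : s ≠ s' := h.1
    cases s <;> cases s' <;> simp_all
  · intro i v
    have := deg d (decide (i.val = 0)) v
    rw [← SimpleGraph.card_neighborFinset_eq_degree] at this
    rw [← SimpleGraph.coe_neighborFinset, Set.ncard_coe_finset]
    exact this.le
  · intro i
    rw [edges]
    have : 2 * d - 1 < 2 * d := by omega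
    exact Nat.mul_lt_mul_of_pos_right this (by omega)
  · rintro ⟨e, he, hdis⟩
    have key : ∀ i : Fin (2 * d), ∃ p : Bool → Bool × Bool × Fin d,
        (∀ s, p s ∈ e i ∧ (p s).1 = s) ∧
          xor (p false).2.1 (p true).2.1 = decide (i.val = 0) := by
      intro i
      have h := he i
      generalize e i = z at h
      induction z using Sym2.ind with
      | _ u v =>
        have h' : (G d (decide (i.val = 0))).Adj u v := h
        obtain ⟨h1, h2⟩ := h'
        cases hu : u.1
        · refine ⟨fun s => if s then v else u, ?_, by simpa using h2⟩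
          intro s
          cases s
          · simp [hu]
          · have : v.1 = true := by
              cases hv : v.1
              · exact absurd (hu.trans hv.symm) h1
              · rfl
            simp [this]
        · refine ⟨fun s => if s then u else v, ?_, by rw [Bool.xor_comm] at h2; simpa using h2⟩
          intro s
          cases s
          · have : v.1 = false := by
              cases hv : v.1
              · rfl
              · exact absurd (hu.trans hv.symm) h1
            simp [this]
          · simp [hu]
    choose p hp hx using key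
    let φ : Fin (2 * d) × Bool → Bool × Bool × Fin d := fun q => p q.1 q.2
    have hinj : Function.Injective φ := by
      rintro ⟨i, s⟩ ⟨j, t⟩ h
      have h' : p i s = p j t := h
      have hst : s = t := by rw [← (hp i s).2, ← (hp j t).2, h']
      have hij : i = j := by
        by_contra hne
        exact hdis i j hne (p i s) ⟨(hp i s).1, h' ▸ (hp j t).1⟩
      rw [hij, hst]
    have hbij : Function.Bijective φ := by
      rw [Fintype.bijective_iff_injective_and_card]
      refine ⟨hinj, ?_⟩
      simp only [Fintype.card_prod, Fintype.card_bool, Fintype.card_fin]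
      ring
    let w : Bool × Bool × Fin d → ZMod 2 := fun v => if v.2.1 then 1 else 0
    have h1 : ∑ q, w (φ q) = ∑ v, w v := hbij.sum_comp w
    have h2 : ∑ v, w v = 0 := by
      rw [Fintype.sum_prod_type, Fintype.sum_bool]
      simp only [w]
      rw [← two_mul]
      have : (2 : ZMod 2) = 0 := rfl
      rw [this, zero_mul]
    have h3 : ∑ q, w (φ q) = 1 := by
      rw [Fintype.sum_prod_type]
      have : ∀ i : Fin (2 * d), ∑ s, w (φ (i, s)) = if i = ⟨0, by omega⟩ then 1 else 0 := by
        intro i
        rw [Fintype.sum_bool]
        have hxi := hx i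
        simp only [w, φ]
        by_cases hi : i.val = 0
        · have : i = ⟨0, by omega⟩ := Fin.ext hi
          rw [if_pos this]
          simp only [hi, decide_true] at hxi
          revert hxi
          cases (p i false).2.1 <;> cases (p i true).2.1 <;> simp
        · have : i ≠ ⟨0, by omega⟩ := fun h => hi (congrArg Fin.val h)
          rw [if_neg this]
          simp only [hi, decide_false] at hxi
          revert hxi
          cases (p i false).2.1 <;> cases (p i true).2.1 <;> simp
          rfl
      simp only [this]
      simp
    rw [h1, h2] at h3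
    exact absurd h3 (by decide)

end Pool.Agent.Results.MP_3ec6a8_co.Counterexample
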